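import Pool.Agent.Lib.LampC.FinU

/-!
Q1 for groups that are virtually abelian-by-(periodic abelian)-by-abelian: if `G` has a subgroup
`G₀` of finite index with normal subgroups `A ≤ M` such that `A` is abelian, `M ⧸ A` is abelian and
periodic and `G₀ ⧸ M` is abelian, and all centralizers of elements of `G` are finitely generated,
then every subgroup of `G` is finitely generated.
-/

set_option autoImplicit false

namespace Pool.Agent.Results.MP_d5e6ed_al.AbelianByPeriodicByAbelian

open scoped commutatorElement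

theorem result {G : Type*} [Group G] (G₀ : Subgroup G) (hfin : G₀.FiniteIndex)
    (A M : Subgroup G₀) [A.Normal] [M.Normal] (hA : ∀ x ∈ A, ∀ y ∈ A, x * y = y * x)
    (hAM : A ≤ M) (hper : ∀ x ∈ M, ∃ n : ℕ, 0 < n ∧ x ^ n ∈ A)
    (hab : ∀ x ∈ M, ∀ y ∈ M, ⁅x, y⁆ ∈ A) (htop : ∀ x y : G₀, ⁅x, y⁆ ∈ M)
    (hcent : ∀ g : G, (Subgroup.centralizer {g}).FG) :
    ∀ H : Subgroup G, H.FG :=
  PolycyclicCent.noeth_of_finiteIndex G₀ (Pool.Agent.LampC.main_u A M hA hAM hper hab htop
    (PolycyclicCent.cent_fg_finiteIndex G₀ hcent))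

end Pool.Agent.Results.MP_d5e6ed_al.AbelianByPeriodicByAbelian
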