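import Pool.Agent.Lib.MP_d5e6ed_al.B.Red

/-!
Q1 for nilpotent-by-(polycyclic-by-finite) groups: if `G` has a nilpotent normal subgroup `N` such
that `G ⧸ N` is polycyclic-by-finite and all centralizers of elements of `G` are finitely
generated, then every subgroup of `G` is finitely generated.
-/

namespace Pool.Agent.Results.MP_d5e6ed_al.NilpotentByPolycyclicByFinite

theorem result {G : Type*} [Group G] (N : Subgroup G) [N.Normal] (hN : Group.IsNilpotent N)
    (P₀ : Subgroup (G ⧸ N)) (hfin : P₀.FiniteIndex) (hsol : Group.IsSolvable P₀)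
    (hfg : ∀ H : Subgroup (G ⧸ N), H.FG)
    (hcent : ∀ g : G, (Subgroup.centralizer {g}).FG) :
    ∀ H : Subgroup G, H.FG :=
  Pool.Agent.D5.main N hN P₀ hfin hsol hfg hcent

end Pool.Agent.Results.MP_d5e6ed_al.NilpotentByPolycyclicByFinite
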