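import Pool.Agent.Lib.LampC.FinK2

/-!
Q1 for groups that are virtually nilpotent-by-(periodic abelian)-by-abelian, with few elements of
the top acting trivially: `G` has a subgroup `G₀` of finite index with normal subgroups `N ≤ M` such
that `N` is nilpotent, `M ⧸ N` is abelian and periodic, `G₀ ⧸ M` is abelian, and either `M ⧸ N` is
finite or only finitely many elements of `G₀ ⧸ M` act trivially on `M ⧸ N`. If all centralizers of
elements of `G` are finitely generated, then every subgroup of `G` is finitely generated.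

If `G₀ ⧸ M` is cyclic the last condition holds automatically (`LampC.ker_of_cyclic`).
-/

set_option autoImplicit false

namespace Pool.Agent.Results.MP_d5e6ed_al.PeriodicAbelianByAbelian

open scoped commutatorElement

theorem result {G : Type*} [Group G] (G₀ : Subgroup G) (hfin : G₀.FiniteIndex)
    (N M : Subgroup G₀) [N.Normal] [M.Normal] (hN : Group.IsNilpotent N) (hNM : N ≤ M)
    (hper : ∀ x ∈ M, ∃ n : ℕ, 0 < n ∧ x ^ n ∈ N)
    (hab : ∀ x ∈ M, ∀ y ∈ M, ⁅x, y⁆ ∈ N)
    (htop : ∀ x y : G₀, ⁅x, y⁆ ∈ M)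
    (hker : Finite (M ⧸ N.subgroupOf M) ∨
      {τ : G₀ ⧸ M | ∃ s : G₀, (s : G₀ ⧸ M) = τ ∧ ∀ m ∈ M, ⁅s, m⁆ ∈ N}.Finite)
    (hcent : ∀ g : G, (Subgroup.centralizer {g}).FG) :
    ∀ H : Subgroup G, H.FG :=
  PolycyclicCent.noeth_of_finiteIndex G₀ (Pool.Agent.LampC.main_top N M hN hNM hper hab
    htop hker (PolycyclicCent.cent_fg_finiteIndex G₀ hcent))

end Pool.Agent.Results.MP_d5e6ed_al.PeriodicAbelianByAbelian
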